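import Pool.Agent.R590.HcMain

/-!
# MP_1496d7_lc: Martin's axiom implies that the covering number of `σ𝒢₀` is the continuum

The proof: for a family of homeomorphisms of the Hilbert cube, the poset of the finite sets `p` of pairs
(homeomorphism `g`, index `n` of a null family of small sets `V n u`, `u < ω`) for which finitely many
partitions between opposite faces of the cube have an intersection that misses every `g (V n u)`,
`(g, n) ∈ p`, is `σ`-linked.
-/

set_option autoImplicit false

namespace Pool.Agent.Results.MP_1496d7_lc.CoveringUnderMA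

open Cardinal Pool.Agent.R590.Hc

/-- 1. For every infinite cardinal `κ`, Martin's axiom for `κ` dense sets in `σ`-linked posets implies
that every family of members of the `σ`-ideal generated by the minimal dense `G_δ`-sets that covers the
Hilbert cube has more than `κ` members. 2. So Martin's axiom implies that every such
family that covers the Hilbert cube has at least continuum many members. -/
theorem result :
    (∀ κ : Cardinal.{0}, ℵ₀ ≤ κ → MALinked κ →
      ∀ 𝒜 : Set (Set Q), (∀ X ∈ 𝒜, SigmaG X) → ⋃₀ 𝒜 = Set.univ → κ < #𝒜) ∧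
    (MA → ∀ 𝒜 : Set (Set Q), (∀ X ∈ 𝒜, SigmaG X) → ⋃₀ 𝒜 = Set.univ → 𝔠 ≤ #𝒜) := by
  refine ⟨fun κ hκ hMA 𝒜 h hc => main hκ hMA 𝒜 h hc, fun hMA 𝒜 h hc => ?_⟩
  by_contra hlt
  push Not at hlt
  have h1 : max (#𝒜) ℵ₀ < 𝔠 := max_lt hlt Cardinal.aleph0_lt_continuum
  exact absurd (main (le_max_right _ _) (mALinked_of_MA hMA h1) 𝒜 h hc) (not_lt.2 (le_max_left _ _))

end Pool.Agent.Results.MP_1496d7_lc.CoveringUnderMA
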